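import Pool.Agent.Y790.TG.Fin
import Pool.Agent.Y790.TG.Decomp

/-!
# For every `k` all but finitely many trees with at most `k` leaves and `n` edges decompose `K_{n,n}`

The trees with at most `k` leaves and sufficiently many vertices have an `α`-labelling
(`Pool.Agent.Y790.TG.allTreeG`, the construction is described in `MP_5799c5_co/FewLeaves`); the copies of the
tree in `K_{n a, n b}` are its translates (Rosa).
-/

set_option autoImplicit false

namespace Pool.Agent.Results.MP_2fbe9b_co.FewLeaves

/-- For every `k` there is `N` such that every finite tree `T` with at most `k` leaves (vertices of degree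
one) and at least `N` vertices decomposes `K_{n,n}`, where `n` is the number of edges of `T`, and even
`K_{n a, n b}` for all `a, b ≥ 1`: there is a family of injective maps `φ i` of the vertices of `T` to the
vertices of `K_{n a, n b}` such that edges go to edges and every edge of `K_{n a, n b}` is the image of exactly
one edge of `T` under exactly one of the maps. -/
theorem result (k : ℕ) : ∃ N : ℕ, 2 ≤ N ∧ ∀ (V : Type) [Fintype V] (T : SimpleGraph V), T.IsTree →
    {x : V | (T.neighborSet x).ncard = 1}.ncard ≤ k → N ≤ Fintype.card V →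
    ∀ a b : ℕ, 1 ≤ a → 1 ≤ b →
    ∃ (ι : Type) (φ : ι → V → Fin (T.edgeSet.ncard * a) ⊕ Fin (T.edgeSet.ncard * b)),
      (∀ i, Function.Injective (φ i)) ∧
      (∀ i u v, T.Adj u v → (completeBipartiteGraph (Fin (T.edgeSet.ncard * a))
        (Fin (T.edgeSet.ncard * b))).Adj (φ i u) (φ i v)) ∧
      ∀ e ∈ (completeBipartiteGraph (Fin (T.edgeSet.ncard * a)) (Fin (T.edgeSet.ncard * b))).edgeSet,
        ∃! p : ι × T.edgeSet, Sym2.map (φ p.1) p.2.val = e := by
  obtain ⟨N, hN⟩ := Pool.Agent.Y790.TG.allTreeG k
  exact ⟨max 2 N, le_max_left _ _, fun V _ T hT hk hV a b ha hb => (Pool.Agent.Y790.TG.decomp V T hT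
    ((le_max_left _ _).trans hV) (hN V T hT hk ((le_max_right _ _).trans hV)) a b ha hb).1⟩

end Pool.Agent.Results.MP_2fbe9b_co.FewLeaves
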